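import Pool.Agent.H999.Ep3.Bridge

/-!
# Gauss' theorem on ternary forms, with the case of equality
-/

set_option autoImplicit false

open Matrix

namespace Pool.Agent.H999.Uni3

open Pool.Agent.K1H99.FCC (N0 rv nsq qf af dt PD rad Fp Qm sd rm Rep)

/-- a certificate for the inequality of Gauss in Selling parameters, with the case of equality -/
theorem gauss_cert {p : Fin 6 → ℝ} (hp : ∀ i, 0 ≤ p i)
    (h0 : 2 ≤ p 0 + p 1 + p 2) (h1 : 2 ≤ p 0 + p 3 + p 4) (h2 : 2 ≤ p 1 + p 3 + p 5)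
    (h3 : 2 ≤ p 2 + p 4 + p 5) (c1 : 2 ≤ p 1 + p 2 + p 3 + p 4) (c2 : 2 ≤ p 0 + p 2 + p 3 + p 5)
    (c3 : 2 ≤ p 0 + p 1 + p 4 + p 5) :
    4 ≤ dt p ∧ (dt p = 4 → p 0 = p 5 ∧ p 1 = p 4 ∧ p 2 = p 3 ∧ p 0 + p 1 + p 2 = 2 ∧
      p 0 * (p 1 + p 2 + p 3 + p 4 - 2) = 0 ∧ p 1 * (p 0 + p 2 + p 3 + p 5 - 2) = 0 ∧
      p 2 * (p 0 + p 1 + p 4 + p 5 - 2) = 0) := by
  obtain ⟨a0, a1, a2, a3, a4, a5⟩ : 0 ≤ p 0 ∧ 0 ≤ p 1 ∧ 0 ≤ p 2 ∧ 0 ≤ p 3 ∧ 0 ≤ p 4 ∧ 0 ≤ p 5 :=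
    ⟨hp 0, hp 1, hp 2, hp 3, hp 4, hp 5⟩
  unfold dt
  generalize p 0 = q0 at *
  generalize p 1 = q1 at *
  generalize p 2 = q2 at *
  generalize p 3 = q3 at *
  generalize p 4 = q4 at *
  generalize p 5 = q5 at *
  obtain ⟨H0, e0⟩ : ∃ H, H = q0 + q1 + q2 - 2 := ⟨_, rfl⟩
  obtain ⟨H1, e1⟩ : ∃ H, H = q0 + q3 + q4 - 2 := ⟨_, rfl⟩
  obtain ⟨H2, e2⟩ : ∃ H, H = q1 + q3 + q5 - 2 := ⟨_, rfl⟩
  obtain ⟨H3, e3⟩ : ∃ H, H = q2 + q4 + q5 - 2 := ⟨_, rfl⟩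
  obtain ⟨C1, f1⟩ : ∃ H, H = q1 + q2 + q3 + q4 - 2 := ⟨_, rfl⟩
  obtain ⟨C2, f2⟩ : ∃ H, H = q0 + q2 + q3 + q5 - 2 := ⟨_, rfl⟩
  obtain ⟨C3, f3⟩ : ∃ H, H = q0 + q1 + q4 + q5 - 2 := ⟨_, rfl⟩
  have g0 : 0 ≤ H0 := by linarith
  have g1 : 0 ≤ H1 := by linarith
  have g2 : 0 ≤ H2 := by linarith
  have g3 : 0 ≤ H3 := by linarith
  have k1 : 0 ≤ C1 := by linarith
  have k2 : 0 ≤ C2 := by linarith
  have k3 : 0 ≤ C3 := by linarith
  have key : q0 * q1 * (q2 + q4 + q5) + q0 * q2 * (q3 + q5) + q0 * q3 * (q4 + q5) +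
      q0 * q4 * q5 + q1 * q2 * (q3 + q4) + q1 * q3 * (q4 + q5) + q1 * q4 * q5 +
      q2 * q3 * (q4 + q5) + q2 * q4 * q5 - 4 =
      1 / 2 * (H0 + H1 + H2 + H3) +
      1 / 6 * (q0 * (H2 + H3) + q1 * (H1 + H3) + q2 * (H1 + H2) + q3 * (H0 + H3) +
        q4 * (H0 + H2) + q5 * (H0 + H1)) +
      1 / 6 * (q0 * C1 + q5 * C1 + q1 * C2 + q4 * C2 + q2 * C3 + q3 * C3) +
      1 / 3 * (q0 * q1 * H3 + q0 * q2 * H2 + q1 * q2 * H1 + q0 * q3 * H3 + q0 * q4 * H2 +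
        q3 * q4 * H0 + q1 * q3 * H3 + q1 * q5 * H1 + q3 * q5 * H0 + q2 * q4 * H2 + q2 * q5 * H1 +
        q4 * q5 * H0) +
      1 / 3 * (q0 * q5 * C1 + q1 * q4 * C2 + q2 * q3 * C3) := by
    rw [e0, e1, e2, e3, f1, f2, f3]
    ring
  have z1 : 0 ≤ q0 * (H2 + H3) + q1 * (H1 + H3) + q2 * (H1 + H2) + q3 * (H0 + H3) +
        q4 * (H0 + H2) + q5 * (H0 + H1) := by positivity
  have y0 : 0 ≤ q0 * C1 := mul_nonneg a0 k1
  have y1 : 0 ≤ q1 * C2 := mul_nonneg a1 k2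
  have y2 : 0 ≤ q2 * C3 := mul_nonneg a2 k3
  have z2 : 0 ≤ q5 * C1 + q4 * C2 + q3 * C3 := by positivity
  have z3 : 0 ≤ q0 * q1 * H3 + q0 * q2 * H2 + q1 * q2 * H1 + q0 * q3 * H3 + q0 * q4 * H2 +
        q3 * q4 * H0 + q1 * q3 * H3 + q1 * q5 * H1 + q3 * q5 * H0 + q2 * q4 * H2 + q2 * q5 * H1 +
        q4 * q5 * H0 := by positivity
  have z4 : 0 ≤ q0 * q5 * C1 + q1 * q4 * C2 + q2 * q3 * C3 := by positivity
  refine ⟨by linarith, fun h => ?_⟩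
  have w0 : H0 = 0 := by linarith
  have w1 : H1 = 0 := by linarith
  have w2 : H2 = 0 := by linarith
  have w3 : H3 = 0 := by linarith
  have w4 : q0 * C1 = 0 := by linarith
  have w5 : q1 * C2 = 0 := by linarith
  have w6 : q2 * C3 = 0 := by linarith
  rw [f1] at w4
  rw [f2] at w5
  rw [f3] at w6
  exact ⟨by linarith, by linarith, by linarith, by linarith, w4, w5, w6⟩

/-- the equality case for ordered parameters -/
theorem gauss_eq {s1 d1 s2 d2 s3 d3 : ℝ} (c1 : s2 ≤ s1) (c2 : s3 ≤ s2) (c3 : 0 ≤ d1) (c4 : d1 ≤ s1)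
    (c5 : 0 ≤ d2) (c6 : d2 ≤ s2) (c7 : d3 ≤ s3) (c8 : -d3 ≤ s3) (m : ℝ) (hm : 0 < m)
    (hd : dt (sd s1 d1 s2 d2 s3 d3) = m ^ 3 / 2)
    (hq : ∀ n : Fin 3 → ℤ, n ≠ 0 → m ≤ qf (sd s1 d1 s2 d2 s3 d3) (rv n)) :
    sd s1 d1 s2 d2 s3 d3 = (m / 2) • Fp := by
  obtain ⟨p, hp⟩ : ∃ p, p = sd s1 d1 s2 d2 s3 d3 := ⟨_, rfl⟩
  have e0 : p 0 = s1 + d1 := by rw [hp]; rfl
  have e1 : p 1 = s2 + d2 := by rw [hp]; rfl
  have e2 : p 2 = s3 + d3 := by rw [hp]; rfl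
  have e3 : p 3 = s3 - d3 := by rw [hp]; rfl
  have e4 : p 4 = s2 - d2 := by rw [hp]; rfl
  have e5 : p 5 = s1 - d1 := by rw [hp]; rfl
  rw [← hp] at hd hq ⊢
  have hp0 : ∀ i, 0 ≤ p i := by
    intro i
    fin_cases i
    · show 0 ≤ p 0
      linarith
    · show 0 ≤ p 1
      linarith
    · show 0 ≤ p 2
      linarith
    · show 0 ≤ p 3
      linarith
    · show 0 ≤ p 4
      linarith
    · show 0 ≤ p 5
      linarith
  have q1 := hq ![1, 0, 0] (by decide)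
  have q2 := hq ![0, 1, 0] (by decide)
  have q3 := hq ![0, 0, 1] (by decide)
  have q4 := hq ![1, 1, 1] (by decide)
  have q5 := hq ![1, 1, 0] (by decide)
  have q6 := hq ![1, 0, 1] (by decide)
  have q7 := hq ![0, 1, 1] (by decide)
  simp [qf, rv] at q1 q2 q3 q4 q5 q6 q7
  obtain ⟨r, hr⟩ : ∃ r : Fin 6 → ℝ, r = (2 / m) • p := ⟨_, rfl⟩
  have hri : ∀ i, r i = 2 / m * p i := fun i => by rw [hr]; rfl
  have h2m : 0 < 2 / m := by positivity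
  have hsc : ∀ x, m ≤ x → 2 ≤ 2 / m * x := by
    intro x hx
    have := mul_le_mul_of_nonneg_left hx h2m.le
    have e : 2 / m * m = 2 := by field_simp
    linarith
  have hdr : dt r = 4 := by
    rw [hr, Pool.Agent.H999.Ep3.g13_dt_smul, hd]
    field_simp
    norm_num
  obtain ⟨-, hE⟩ := gauss_cert (p := r) (fun i => by rw [hri]; exact mul_nonneg h2m.le (hp0 i))
    (by rw [hri, hri, hri]; have := hsc _ q4; linarith)
    (by rw [hri, hri, hri]; have := hsc _ q1; linarith)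
    (by rw [hri, hri, hri]; have := hsc _ q2; linarith)
    (by rw [hri, hri, hri]; have := hsc _ q3; linarith)
    (by rw [hri, hri, hri, hri]; have := hsc _ q7; linarith)
    (by rw [hri, hri, hri, hri]; have := hsc _ q6; linarith)
    (by rw [hri, hri, hri, hri]; have := hsc _ q5; linarith)
  obtain ⟨x1, x2, x3, x4, x5, x6, x7⟩ := hE hdr
  have o1 : r 1 + r 4 ≤ r 0 + r 5 := by
    rw [hri, hri, hri, hri, e0, e1, e4, e5]
    nlinarith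
  have o2 : r 2 + r 3 ≤ r 1 + r 4 := by
    rw [hri, hri, hri, hri, e1, e2, e3, e4]
    nlinarith
  have r2 : 0 ≤ r 2 := by rw [hri]; exact mul_nonneg h2m.le (hp0 2)
  have k0 : r 0 = 1 := by
    rcases mul_eq_zero.1 x5 with h | h
    · exfalso
      linarith
    · linarith
  have k1 : r 1 = 1 := by
    rcases mul_eq_zero.1 x6 with h | h
    · exfalso
      linarith
    · linarith
  have k2 : r 2 = 0 := by linarith
  have hmm : ∀ i, p i = m / 2 * r i := by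
    intro i
    rw [hri]
    field_simp
  funext i
  rw [hmm]
  show m / 2 * r i = m / 2 * Fp i
  congr 1
  unfold Fp
  fin_cases i
  · show r 0 = _
    rw [k0]; rfl
  · show r 1 = _
    rw [k1]; rfl
  · show r 2 = _
    rw [k2]; rfl
  · show r 3 = _
    rw [← x3, k2]; rfl
  · show r 4 = _
    rw [← x2, k1]; rfl
  · show r 5 = _
    rw [← x1, k0]; rfl

end Pool.Agent.H999.Uni3
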