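import Pool.Agent.H999.Ep3.EpLa

/-!
# The strict comparison of completed zeta functions
-/

set_option autoImplicit false

open Matrix MeasureTheory Set

namespace Pool.Agent.H999.Uni3

open Pool.Agent.H999.Ep3

/-- the strict comparison of completed zeta functions -/
theorem la_lt (hd : DualFacts) (hθ : ThetaFacts) (hTT : TT)
    (h1 : ∀ A : Matrix (Fin 3) (Fin 3) ℝ, |A.det| = 1 → U1 A)
    (h2 : ∀ A : Matrix (Fin 3) (Fin 3) ℝ, |A.det| = 1 → U2 A)
    (hn1 : Tail1) (hn2 : Tail2) (A : Matrix (Fin 3) (Fin 3) ℝ) (hA : |A.det| = 1) (σ : ℝ)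
    (hσ' : 3 / 4 < σ) (t0 : ℝ) (ht0 : 1 < t0) (hlt : th AF t0 < th A t0) :
    La AF σ < La A σ := by
  have hσ : 3 / 4 ≤ σ := hσ'.le
  obtain ⟨hAF, hAB, hdAF, hdAB, hdual⟩ := hd
  have hdA := (hdual A hA).1
  have hI : ∀ (B : Matrix (Fin 3) (Fin 3) ℝ), |B.det| = 1 → ∀ r : ℝ,
      IntegrableOn (fun t => (th B t - 1) * t ^ r) (Ioi 1) := fun B hB r => (hθ B hB).2.2.2.2 r
  have hI0 : ∀ (B : Matrix (Fin 3) (Fin 3) ℝ), |B.det| = 1 →
      IntegrableOn (fun t => th B t - 1) (Ioi 1) := by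
    intro B hB
    refine (hI B hB 0).congr_fun (fun t _ => ?_) measurableSet_Ioi
    show (th B t - 1) * t ^ (0 : ℝ) = th B t - 1
    rw [Real.rpow_zero, mul_one]
  obtain ⟨u, hu⟩ : ∃ u : ℝ → ℝ, u = fun t => UU A t := ⟨_, rfl⟩
  have hut : ∀ t, u t = (th A t - 1) + (th (dl A) t - 1) - (th AF t - 1) - (th AB t - 1) := by
    intro t
    rw [hu]
    show UU A t = _
    unfold UU
    ring
  have huI : IntegrableOn u (Ioi 1) := by
    refine ((((hI0 A hA).add (hI0 _ hdA)).sub (hI0 _ hAF)).sub (hI0 _ hAB)).congr_fun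
      (fun t _ => ?_) measurableSet_Ioi
    rw [hut]
    rfl
  have huw : IntegrableOn (fun t => u t * t ^ (1 / 2 - σ)) (Ioi 1) := by
    refine ((((hI A hA (1 / 2 - σ)).add (hI _ hdA (1 / 2 - σ))).sub (hI _ hAF (1 / 2 - σ))).sub
      (hI _ hAB (1 / 2 - σ))).congr_fun (fun t _ => ?_) measurableSet_Ioi
    show (th A t - 1) * t ^ (1 / 2 - σ) + (th (dl A) t - 1) * t ^ (1 / 2 - σ) -
      (th AF t - 1) * t ^ (1 / 2 - σ) - (th AB t - 1) * t ^ (1 / 2 - σ) = u t * t ^ (1 / 2 - σ)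
    rw [hut]
    ring
  -- monotonicity
  have hmono : ∀ (B : Matrix (Fin 3) (Fin 3) ℝ), |B.det| = 1 → ∀ t t' : ℝ, 0 < t → t ≤ t' →
      th B t' ≤ th B t := by
    intro B hB t t' ht htt
    unfold th
    refine ((hθ B hB).1 t' (by linarith)).tsum_le_tsum (fun z => ?_) ((hθ B hB).1 t ht)
    rw [Real.exp_le_exp]
    have h0 : 0 ≤ nm B z := Finset.sum_nonneg fun _ _ => sq_nonneg _
    have h3 : Real.pi * t * nm B z ≤ Real.pi * t' * nm B z :=
      mul_le_mul_of_nonneg_right (mul_le_mul_of_nonneg_left htt Real.pi_pos.le) h0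
    linarith
  have hge1 : ∀ (B : Matrix (Fin 3) (Fin 3) ℝ), |B.det| = 1 → ∀ t : ℝ, 1 ≤ t → 0 ≤ th B t - 1 := by
    intro B hB t ht
    obtain ⟨C, c, -, -, h⟩ := (hθ B hB).2.2.2.1
    exact (h t ht).1
  -- positivity of the integral of `u w`
  have key : 0 ≤ ∫ t in Ioi 1, u t * t ^ (1 / 2 - σ) := by
    have hpos : ∀ t ∈ Ioc (1 : ℝ) (819 / 256), 0 ≤ u t := by
      intro t ht
      rw [hu]
      exact h1 A hA t ht.1.le ht.2
    have hw1 : ∀ t ∈ Ioc (1 : ℝ) (819 / 256),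
        0 ≤ u t ∧ (819 / 256 : ℝ) ^ (1 / 2 - σ) ≤ t ^ (1 / 2 - σ) := by
      intro t ht
      refine ⟨hpos t ht, ?_⟩
      exact Real.rpow_le_rpow_of_nonpos (by linarith [ht.1]) ht.2 (by linarith)
    have hw2 : ∀ t ∈ Ioi (819 / 256 : ℝ), 0 ≤ t ^ (1 / 2 - σ) ∧
        t ^ (1 / 2 - σ) ≤ (819 / 256 : ℝ) ^ (1 / 2 - σ) := by
      intro t ht
      have ht' : (819 / 256 : ℝ) < t := ht
      refine ⟨Real.rpow_nonneg (by linarith) _, ?_⟩
      exact Real.rpow_le_rpow_of_nonpos (by norm_num) ht'.le (by linarith)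
    rcases h2 A hA with hc | ⟨ε, hε, hc1, hc2⟩
    · -- first case
      have hlow := e5_low u (819 / 256) (9 / 1000000) (by norm_num) huI hpos (by
        intro t a b
        rw [hu]
        exact hc t a b)
      have hmI : IntegrableOn (fun t => th AB t - th AF t) (Ioi (819 / 256 : ℝ)) := by
        have h3 : IntegrableOn (fun t => (th AB t - 1) - (th AF t - 1)) (Ioi 1) :=
          (hI0 _ hAB).sub (hI0 _ hAF)
        refine (h3.mono_set (Ioi_subset_Ioi (by norm_num))).congr_fun (fun t _ => ?_)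
          measurableSet_Ioi
        show (th AB t - 1) - (th AF t - 1) = th AB t - th AF t
        ring
      refine e5_core u _ (fun t => th AB t - th AF t) (819 / 256) ((819 / 256 : ℝ) ^ (1 / 2 - σ))
        (by norm_num) (by positivity) huI huw hmI hw1 (fun t ht => ?_) ?_
      · obtain ⟨a, b⟩ := hw2 t ht
        have ht' : (819 / 256 : ℝ) < t := ht
        have ht1 : 1 ≤ t := by linarith
        refine ⟨a, b, ?_, ?_⟩
        · have := hTT AB hAB t ht1
          show 0 ≤ th AB t - th AF t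
          linarith
        · have e1 := hTT A hA t ht1
          have e2 := hTT (dl A) hdA t ht1
          show -(th AB t - th AF t) ≤ u t
          rw [hut]
          linarith
      · have : (∫ t in Ioi (819 / 256 : ℝ), (th AB t - th AF t)) ≤ 45 / 10000000 := hn1
        linarith
    · -- second case
      have hlow := e5_low u (819 / 256) (ε / 1000) (by norm_num) huI hpos (by
        intro t a b
        rw [hu]
        exact hc1 t a b)
      have hfI : IntegrableOn (fun t => th AB t - 1) (Ioi (819 / 256 : ℝ)) :=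
        (hI0 _ hAB).mono_set (Ioi_subset_Ioi (by norm_num))
      obtain ⟨hmI, hmle⟩ := e5_tail (fun t => th AB t - 1) (819 / 256) ε (by norm_num) hε hfI
        (fun t ht => hge1 _ hAB t (by linarith)) (fun t ht => by
          have := hmono AB hAB (819 / 256) t (by norm_num) ht
          show th AB t - 1 ≤ th AB (819 / 256) - 1
          linarith)
      refine e5_core u _ (fun t => (th AB t - 1) - (th AB (t * (1 + ε)) - 1)) (819 / 256)
        ((819 / 256 : ℝ) ^ (1 / 2 - σ)) (by norm_num) (by positivity) huI huw hmI hw1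
        (fun t ht => ?_) ?_
      · obtain ⟨a, b⟩ := hw2 t ht
        have ht' : (819 / 256 : ℝ) < t := ht
        have ht0 : 0 < t := by linarith
        refine ⟨a, b, ?_, ?_⟩
        · have := hmono AB hAB t (t * (1 + ε)) ht0 (by nlinarith)
          show 0 ≤ (th AB t - 1) - (th AB (t * (1 + ε)) - 1)
          linarith
        · have e1 := hc2 t ht'.le
          show -((th AB t - 1) - (th AB (t * (1 + ε)) - 1)) ≤ u t
          have e2 : u t = UU A t := by rw [hu]
          linarith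
      · have e1 : 819 / 256 * (th AB (819 / 256) - 1) +
            ∫ t in Ioi (819 / 256 : ℝ), (th AB t - 1) ≤ 5 / 10000 := hn2
        have e2 := mul_le_mul_of_nonneg_left e1 hε
        have e3 : ε * (5 / 10000) = ε / 1000 / 2 := by ring
        exact hmle.trans (e2.trans (e3.le.trans hlow))
  -- conclusion
  unfold La
  have hX : IntegrableOn (fun t : ℝ => (th AF t - 1) * t ^ (σ - 1) +
      (th (dl AF) t - 1) * t ^ (1 / 2 - σ)) (Ioi 1) := by
    refine ((hI _ hAF (σ - 1)).add (hI _ hAB (1 / 2 - σ))).congr_fun (fun t _ => ?_)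
      measurableSet_Ioi
    show (th AF t - 1) * t ^ (σ - 1) + (th AB t - 1) * t ^ (1 / 2 - σ) = _
    rw [← hdAF t]
  have hY : IntegrableOn (fun t : ℝ => (th A t - 1) * t ^ (σ - 1) +
      (th (dl A) t - 1) * t ^ (1 / 2 - σ)) (Ioi 1) := (hI _ hA (σ - 1)).add (hI _ hdA (1 / 2 - σ))
  have hpt : ∀ t : ℝ, (((th A t - 1) * t ^ (σ - 1) + (th (dl A) t - 1) * t ^ (1 / 2 - σ)) -
        ((th AF t - 1) * t ^ (σ - 1) + (th (dl AF) t - 1) * t ^ (1 / 2 - σ))) -
        u t * t ^ (1 / 2 - σ) = (th A t - th AF t) * (t ^ (σ - 1) - t ^ (1 / 2 - σ)) := by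
    intro t
    rw [hut, hdAF t]
    ring
  have hZ : IntegrableOn (fun t : ℝ => (th A t - th AF t) * (t ^ (σ - 1) - t ^ (1 / 2 - σ)))
      (Ioi 1) := by
    refine ((hY.sub hX).sub huw).congr_fun (fun t _ => ?_) measurableSet_Ioi
    exact hpt t
  have hnn : ∀ t ∈ Ioi (1 : ℝ), 0 ≤ (th A t - th AF t) * (t ^ (σ - 1) - t ^ (1 / 2 - σ)) := by
    intro t ht
    have ht' : (1 : ℝ) < t := ht
    have hg := hTT A hA t ht'.le
    have hpw : t ^ (1 / 2 - σ) ≤ t ^ (σ - 1) :=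
      Real.rpow_le_rpow_of_exponent_le ht'.le (by linarith)
    exact mul_nonneg (by linarith) (by linarith)
  have hcont : ContinuousOn (fun t : ℝ => (th A t - th AF t) * (t ^ (σ - 1) - t ^ (1 / 2 - σ)))
      (Ioi 1) := by
    have hs : Ioi (1 : ℝ) ⊆ Ioi 0 := Ioi_subset_Ioi zero_le_one
    have r1 : ∀ r : ℝ, ContinuousOn (fun t : ℝ => t ^ r) (Ioi 1) := by
      intro r t ht
      have ht' : (1 : ℝ) < t := ht
      exact (Real.continuousAt_rpow_const t r (Or.inl (by linarith))).continuousWithinAt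
    exact ((((hθ A hA).2.1).mono hs).sub (((hθ AF hAF).2.1).mono hs)).mul
      ((r1 (σ - 1)).sub (r1 (1 / 2 - σ)))
  have hpos : 0 < ∫ t in Ioi (1 : ℝ), (th A t - th AF t) * (t ^ (σ - 1) - t ^ (1 / 2 - σ)) := by
    rw [setIntegral_pos_iff_support_of_nonneg_ae
      ((ae_restrict_iff' measurableSet_Ioi).2 (Filter.Eventually.of_forall hnn)) hZ]
    have ho : IsOpen (Ioi (1 : ℝ) ∩ (fun t : ℝ => (th A t - th AF t) *
        (t ^ (σ - 1) - t ^ (1 / 2 - σ))) ⁻¹' {0}ᶜ) :=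
      hcont.isOpen_inter_preimage isOpen_Ioi isOpen_compl_singleton
    have hne' : (Ioi (1 : ℝ) ∩ (fun t : ℝ => (th A t - th AF t) *
        (t ^ (σ - 1) - t ^ (1 / 2 - σ))) ⁻¹' {0}ᶜ).Nonempty := by
      refine ⟨t0, ht0, ?_⟩
      have hpw : t0 ^ (1 / 2 - σ) < t0 ^ (σ - 1) :=
        Real.rpow_lt_rpow_of_exponent_lt ht0 (by linarith)
      exact (mul_pos (sub_pos.2 hlt) (sub_pos.2 hpw)).ne'
    refine lt_of_lt_of_le (ho.measure_pos volume hne') (measure_mono ?_)
    rintro t ⟨a, b⟩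
    exact ⟨b, a⟩
  have heq : ∫ t in Ioi (1 : ℝ), (th A t - th AF t) * (t ^ (σ - 1) - t ^ (1 / 2 - σ)) =
      (∫ t in Ioi (1 : ℝ), (((th A t - 1) * t ^ (σ - 1) + (th (dl A) t - 1) * t ^ (1 / 2 - σ)) -
        ((th AF t - 1) * t ^ (σ - 1) + (th (dl AF) t - 1) * t ^ (1 / 2 - σ)))) -
      ∫ t in Ioi 1, u t * t ^ (1 / 2 - σ) := by
    have hYX : IntegrableOn (fun t : ℝ => (((th A t - 1) * t ^ (σ - 1) +
        (th (dl A) t - 1) * t ^ (1 / 2 - σ)) -
        ((th AF t - 1) * t ^ (σ - 1) + (th (dl AF) t - 1) * t ^ (1 / 2 - σ)))) (Ioi 1) := hY.sub hX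
    rw [← integral_sub hYX huw]
    exact setIntegral_congr_fun measurableSet_Ioi fun t _ => (hpt t).symm
  rw [heq, integral_sub hY hX] at hpos
  linarith

end Pool.Agent.H999.Uni3
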