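import Pool.Agent.H999.Uni3.Min
import Pool.Agent.H999.Uni3.Strict
import Pool.Agent.H999.Ep3.Main

/-!
# Uniqueness of the minimiser
-/

set_option autoImplicit false

open Matrix MeasureTheory Set

namespace Pool.Agent.H999.Uni3

open Pool.Agent.H999.Ep3
open Pool.Agent.K1H99.FCC (rm)

/-- the Epstein zeta function of a lattice in three-dimensional Euclidean space -/
noncomputable def zeta (L : Set (EuclideanSpace ℝ (Fin 3))) (s : ℝ) : ℝ :=
  ∑' x : {x : EuclideanSpace ℝ (Fin 3) // x ∈ L ∧ x ≠ 0}, ‖x.1‖ ^ (-(2 * s))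

theorem exists_iso {Q : Matrix (Fin 3) (Fin 3) ℝ} (hQ : Qᵀ * Q = 1) :
    ∃ φ : EuclideanSpace ℝ (Fin 3) ≃ₗᵢ[ℝ] EuclideanSpace ℝ (Fin 3),
      ∀ x : Fin 3 → ℝ, φ (WithLp.toLp 2 x) = WithLp.toLp 2 (Q.mulVec x) := by
  have hn : ∀ x : EuclideanSpace ℝ (Fin 3), ‖Matrix.toEuclideanLin Q x‖ = ‖x‖ := by
    intro x
    rw [EuclideanSpace.norm_eq, EuclideanSpace.norm_eq]
    congr 1
    have e1 : ∀ y : Fin 3 → ℝ, (∑ i, ‖y i‖ ^ 2) = y ⬝ᵥ y := by
      intro y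
      unfold dotProduct
      exact Finset.sum_congr rfl fun i _ => by rw [Real.norm_eq_abs, sq_abs, sq]
    have e2 : (WithLp.ofLp (Matrix.toEuclideanLin Q x)) = Q.mulVec (WithLp.ofLp x) := rfl
    rw [e1, e1 (WithLp.ofLp x), e2, Matrix.dotProduct_mulVec, ← Matrix.mulVec_transpose,
      Matrix.mulVec_mulVec, hQ, Matrix.one_mulVec]
  let g : EuclideanSpace ℝ (Fin 3) →ₗᵢ[ℝ] EuclideanSpace ℝ (Fin 3) :=
    ⟨Matrix.toEuclideanLin Q, hn⟩
  exact ⟨g.toLinearIsometryEquiv rfl, fun x => rfl⟩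

theorem range_rm (A : Matrix (Fin 3) (Fin 3) ℝ) {U : Matrix (Fin 3) (Fin 3) ℤ}
    (hU : IsUnit U.det) : Set.range (lmap (A * rm U)) = Set.range (lmap A) := by
  have e : ∀ z : Fin 3 → ℤ, lmap (A * rm U) z = lmap A (U.mulVec z) := by
    intro z
    unfold lmap
    congr 1
    rw [← Matrix.mulVec_mulVec]
    congr 1
    funext i
    simp [rm, Matrix.mulVec, dotProduct]
  apply Set.Subset.antisymm
  · rintro x ⟨z, rfl⟩
    exact ⟨U.mulVec z, (e z).symm⟩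
  · rintro x ⟨z, rfl⟩
    refine ⟨U⁻¹.mulVec z, ?_⟩
    rw [e, Matrix.mulVec_mulVec, Matrix.mul_nonsing_inv _ hU, Matrix.one_mulVec]

theorem iso_of_gram {B C : Matrix (Fin 3) (Fin 3) ℝ} (hC : IsUnit C.det) (h : Bᵀ * B = Cᵀ * C) :
    ∃ φ : EuclideanSpace ℝ (Fin 3) ≃ₗᵢ[ℝ] EuclideanSpace ℝ (Fin 3),
      φ '' Set.range (lmap C) = Set.range (lmap B) := by
  have hQ : (B * C⁻¹)ᵀ * (B * C⁻¹) = 1 := by
    rw [Matrix.transpose_mul, Matrix.mul_assoc, ← Matrix.mul_assoc Bᵀ, h, Matrix.mul_assoc Cᵀ,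
      Matrix.mul_nonsing_inv _ hC, Matrix.mul_one, ← Matrix.transpose_mul,
      Matrix.mul_nonsing_inv _ hC, Matrix.transpose_one]
  obtain ⟨φ, hφ⟩ := exists_iso hQ
  refine ⟨φ, ?_⟩
  have e : ∀ z : Fin 3 → ℤ, φ (lmap C z) = lmap B z := by
    intro z
    unfold lmap
    rw [hφ, Matrix.mulVec_mulVec, Matrix.mul_assoc, Matrix.nonsing_inv_mul _ hC, Matrix.mul_one]
  rw [← Set.range_comp]
  congr 1
  funext z
  exact e z

theorem iso_of_th {A : Matrix (Fin 3) (Fin 3) ℝ} (hA : |A.det| = 1)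
    (h : ∀ t : ℝ, 1 < t → th A t = th AF t) :
    ∃ φ : EuclideanSpace ℝ (Fin 3) ≃ₗᵢ[ℝ] EuclideanSpace ℝ (Fin 3),
      φ '' fcc = Set.range (lmap A) := by
  obtain ⟨U, V, hU, hV, e⟩ := gram_of_min hA fun z hz => min_of_th hA h hz
  have hC : IsUnit (AF * rm V).det := by
    rw [Matrix.det_mul, Pool.Agent.K1H99.FCC.rm_det, isUnit_iff_ne_zero]
    refine mul_ne_zero (g13_unit g13_detF).ne_zero ?_
    rcases Int.isUnit_iff.1 hV with h | h <;> rw [h] <;> norm_num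
  obtain ⟨φ, hφ⟩ := iso_of_gram hC e
  refine ⟨φ, ?_⟩
  rw [range_rm _ hU, range_rm _ hV, ← fs_fcc] at hφ
  exact hφ

theorem zeta_hasSum {A : Matrix (Fin 3) (Fin 3) ℝ} (hA : |A.det| = 1) {s : ℝ} (hs : 3 / 2 < s) :
    HasSum (fun x : {x : EuclideanSpace ℝ (Fin 3) // x ∈ Set.range (lmap A) ∧ x ≠ 0} =>
      ‖x.1‖ ^ (-(2 * s))) (Real.pi ^ s / Real.Gamma s * La A s) := by
  obtain ⟨Z, hZ, hv⟩ := exists_epstein dual_facts theta_facts A hA
  have h1 := ((fs_iff hA Z).2 hZ).2 ((2 * s : ℝ) : ℂ) (by rw [Complex.ofReal_re]; linarith)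
  rw [hv s (by linarith) (by linarith)] at h1
  have h2 : (fun x : {x : EuclideanSpace ℝ (Fin 3) // x ∈ Set.range (lmap A) ∧ x ≠ 0} =>
      ((‖x.1‖ : ℝ) : ℂ) ^ (-((2 * s : ℝ) : ℂ))) = fun x => ((‖x.1‖ ^ (-(2 * s)) : ℝ) : ℂ) := by
    funext x
    rw [Complex.ofReal_cpow (norm_nonneg _), Complex.ofReal_neg]
  rw [h2] at h1
  exact Complex.hasSum_ofReal.1 h1

/-- the face-centred cubic lattice minimises the theta function at all scales `t ≥ 1` -/
theorem tt : TT :=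
  tt_of dual_facts theta_facts fun β h0 h1 A hA => (Theta3.main β h0 h1 A hA).1

theorem la_le' : LaLe :=
  la_le dual_facts theta_facts tt (fun A hA => (U_of_FL (fl tt) A hA).1)
    (fun A hA => (U_of_FL (fl tt) A hA).2) (tails dual_facts theta_facts).1
    (tails dual_facts theta_facts).2

theorem la_lt' (A : Matrix (Fin 3) (Fin 3) ℝ) (hA : |A.det| = 1) (σ : ℝ) (hσ : 3 / 4 < σ)
    (t0 : ℝ) (ht0 : 1 < t0) (hlt : th AF t0 < th A t0) : La AF σ < La A σ :=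
  la_lt dual_facts theta_facts tt (fun A hA => (U_of_FL (fl tt) A hA).1)
    (fun A hA => (U_of_FL (fl tt) A hA).2) (tails dual_facts theta_facts).1
    (tails dual_facts theta_facts).2 A hA σ hσ t0 ht0 hlt

/-- an isometry preserves the zeta function -/
theorem zeta_iso {L : Set (EuclideanSpace ℝ (Fin 3))}
    (φ : EuclideanSpace ℝ (Fin 3) ≃ₗᵢ[ℝ] EuclideanSpace ℝ (Fin 3)) (s : ℝ) :
    zeta (φ '' L) s = zeta L s := by
  unfold zeta
  let e : {x : EuclideanSpace ℝ (Fin 3) // x ∈ L ∧ x ≠ 0} ≃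
      {x : EuclideanSpace ℝ (Fin 3) // x ∈ φ '' L ∧ x ≠ 0} :=
    { toFun := fun x => ⟨φ x.1, ⟨x.1, x.2.1, rfl⟩, fun h => x.2.2 (by
        have := congrArg φ.symm h
        rwa [LinearIsometryEquiv.symm_apply_apply, map_zero] at this)⟩
      invFun := fun x => ⟨φ.symm x.1, by
        obtain ⟨y, hy, h⟩ := x.2.1
        rw [← h, LinearIsometryEquiv.symm_apply_apply]
        exact hy, fun h => x.2.2 (by
        have := congrArg φ h
        rwa [LinearIsometryEquiv.apply_symm_apply, map_zero] at this)⟩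
      left_inv := fun x => Subtype.ext (by simp)
      right_inv := fun x => Subtype.ext (by simp) }
  rw [← e.tsum_eq]
  refine tsum_congr fun x => ?_
  show ‖φ x.1‖ ^ (-(2 * s)) = ‖x.1‖ ^ (-(2 * s))
  rw [LinearIsometryEquiv.norm_map]

/-- the face-centred cubic lattice is the unique minimiser of the Epstein zeta function, up to isometry -/
theorem main (s : ℝ) (hs : 3 / 2 < s) (L : Set (EuclideanSpace ℝ (Fin 3))) (hL : IsLattice1 L) :
    Summable (fun x : {x : EuclideanSpace ℝ (Fin 3) // x ∈ L ∧ x ≠ 0} => ‖x.1‖ ^ (-(2 * s))) ∧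
    zeta fcc s ≤ zeta L s ∧
    (zeta L s = zeta fcc s ↔
      ∃ φ : EuclideanSpace ℝ (Fin 3) ≃ₗᵢ[ℝ] EuclideanSpace ℝ (Fin 3), φ '' fcc = L) := by
  obtain ⟨A, hA, rfl⟩ := hL
  have hF : |AF.det| = 1 := g13_detF
  have h1 := zeta_hasSum hA hs
  have h2 := zeta_hasSum hF hs
  rw [← fs_fcc] at h2
  have e1 : zeta (Set.range (lmap A)) s = Real.pi ^ s / Real.Gamma s * La A s := h1.tsum_eq
  have e2 : zeta fcc s = Real.pi ^ s / Real.Gamma s * La AF s := h2.tsum_eq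
  have hc : 0 < Real.pi ^ s / Real.Gamma s :=
    div_pos (Real.rpow_pos_of_pos Real.pi_pos s) (Real.Gamma_pos_of_pos (by linarith))
  have hle := la_le' A hA s (by linarith) (by linarith)
  refine ⟨h1.summable, ?_, ?_, ?_⟩
  · rw [e1, e2]
    exact mul_le_mul_of_nonneg_left hle hc.le
  · intro h
    rw [e1, e2] at h
    have h3 : La A s = La AF s := mul_left_cancel₀ hc.ne' h
    refine iso_of_th hA fun t ht => ?_
    by_contra hne
    have h4 := tt A hA t ht.le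
    have h5 : th AF t < th A t := lt_of_le_of_ne h4 (Ne.symm hne)
    have h6 := la_lt' A hA s (by linarith) t ht h5
    rw [h3] at h6
    exact lt_irrefl _ h6
  · rintro ⟨φ, h⟩
    rw [← h]
    exact zeta_iso φ s

end Pool.Agent.H999.Uni3
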