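import Pool.Agent.H999.Uni3.Gauss
import Pool.Agent.H999.Ep3.Fin

/-!
# Lattices with the theta function of the face-centred cubic lattice
-/

set_option autoImplicit false

open Matrix MeasureTheory Set

namespace Pool.Agent.H999.Uni3

open Pool.Agent.H999.Ep3
open Pool.Agent.K1H99.FCC (N0 rv nsq qf af dt PD rad Fp Qm sd rm Rep rm_mul rm_one rm_det
  exists_reduced nsq_mul_rm nsq_eq det_sq)

theorem int_small (a b c : ℤ) (hle : a ^ 2 + b ^ 2 + c ^ 2 ≤ 1) (hpar : (a + b + c) % 2 = 0) :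
    a = 0 ∧ b = 0 ∧ c = 0 := by
  have ha2 : a ^ 2 ≤ 1 := by nlinarith [sq_nonneg b, sq_nonneg c]
  have hb2 : b ^ 2 ≤ 1 := by nlinarith [sq_nonneg a, sq_nonneg c]
  have hc2 : c ^ 2 ≤ 1 := by nlinarith [sq_nonneg b, sq_nonneg a]
  have a1 : -1 ≤ a := by nlinarith
  have a2 : a ≤ 1 := by nlinarith
  have b1 : -1 ≤ b := by nlinarith
  have b2 : b ≤ 1 := by nlinarith
  have c1 : -1 ≤ c := by nlinarith
  have c2 : c ≤ 1 := by nlinarith
  interval_cases a <;> interval_cases b <;> interval_cases c <;> simp at *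

/-- the minimum of the face-centred cubic lattice -/
theorem nmF_ge {z : Fin 3 → ℤ} (hz : z ≠ 0) : (2:ℝ) ^ ((1:ℝ)/3) ≤ nm AF z := by
  have hp := g13_pos
  have h3 := g13_cube
  have e : nm AF z = (((2:ℝ) ^ ((1:ℝ)/3))⁻¹) ^ 2 *
      (((z 1 + z 2) ^ 2 + (z 0 + z 2) ^ 2 + (z 0 + z 1) ^ 2 : ℤ) : ℝ) := by
    unfold nm AF
    rw [g13_inv]
    simp [Matrix.mulVec, dotProduct, Fin.sum_univ_three]
    ring
  have hN : 2 ≤ (z 1 + z 2) ^ 2 + (z 0 + z 2) ^ 2 + (z 0 + z 1) ^ 2 := by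
    by_contra hlt
    have h0 := int_small (z 1 + z 2) (z 0 + z 2) (z 0 + z 1) (by omega) (by omega)
    apply hz
    funext i
    fin_cases i
    · show z 0 = 0
      omega
    · show z 1 = 0
      omega
    · show z 2 = 0
      omega
  have hN' : (2:ℝ) ≤ (((z 1 + z 2) ^ 2 + (z 0 + z 2) ^ 2 + (z 0 + z 1) ^ 2 : ℤ) : ℝ) := by
    exact_mod_cast hN
  rw [e]
  have h4 : (((2:ℝ) ^ ((1:ℝ)/3))⁻¹) ^ 2 * 2 = (2:ℝ) ^ ((1:ℝ)/3) := by
    generalize (2:ℝ) ^ ((1:ℝ)/3) = c at *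
    field_simp
    linarith
  calc (2:ℝ) ^ ((1:ℝ)/3) = (((2:ℝ) ^ ((1:ℝ)/3))⁻¹) ^ 2 * 2 := h4.symm
    _ ≤ _ := mul_le_mul_of_nonneg_left hN' (by positivity)

/-- the theta function without its first term -/
theorem th_sub {A : Matrix (Fin 3) (Fin 3) ℝ} (hA : |A.det| = 1) {t : ℝ} (ht : 0 < t) :
    Summable (fun n : N0 => Real.exp (-Real.pi * t * nm A n.1)) ∧
    th A t = 1 + ∑' n : N0, Real.exp (-Real.pi * t * nm A n.1) := by
  have hs := (theta_facts A hA).1 t ht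
  refine ⟨hs.subtype {z : Fin 3 → ℤ | z ≠ 0}, ?_⟩
  rw [g13_th (g13_dl hA).1 ht]
  congr 1
  refine tsum_congr fun n => ?_
  have : nm A n.1 = nsq A (rv n.1) := rfl
  rw [this]
  congr 1
  ring

/-- a lattice with the theta function of the face-centred cubic lattice has the same minimum -/
theorem min_of_th {A : Matrix (Fin 3) (Fin 3) ℝ} (hA : |A.det| = 1)
    (h : ∀ t : ℝ, 1 < t → th A t = th AF t) {z : Fin 3 → ℤ} (hz : z ≠ 0) :
    (2:ℝ) ^ ((1:ℝ)/3) ≤ nm A z := by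
  by_contra hlt
  push Not at hlt
  obtain ⟨m, hm⟩ : ∃ m : ℝ, m = (2:ℝ) ^ ((1:ℝ)/3) := ⟨_, rfl⟩
  obtain ⟨ν, hν⟩ : ∃ ν : ℝ, ν = nm A z := ⟨_, rfl⟩
  rw [← hm, ← hν] at hlt
  obtain ⟨C, hC⟩ : ∃ C : ℝ, C = ∑' n : N0, Real.exp (-Real.pi * 1 * nm AF n.1) := ⟨_, rfl⟩
  have hC0 : 0 ≤ C := by rw [hC]; exact tsum_nonneg fun _ => (Real.exp_pos _).le
  have h1 : ∀ t : ℝ, 1 < t → Real.exp (-Real.pi * t * ν) ≤ Real.exp (-Real.pi * (t - 1) * m) * C := by
    intro t ht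
    have ht0 : 0 < t := by linarith
    obtain ⟨sA, eA⟩ := th_sub hA ht0
    obtain ⟨sF, eF⟩ := th_sub g13_detF ht0
    obtain ⟨s1, -⟩ := th_sub g13_detF zero_lt_one
    have e1 : Real.exp (-Real.pi * t * ν) ≤ ∑' n : N0, Real.exp (-Real.pi * t * nm A n.1) := by
      have := sA.le_tsum ⟨z, hz⟩ fun _ _ => (Real.exp_pos _).le
      rw [hν]
      exact this
    have e2 : ∑' n : N0, Real.exp (-Real.pi * t * nm AF n.1) ≤
        Real.exp (-Real.pi * (t - 1) * m) * C := by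
      rw [hC, ← tsum_mul_left]
      refine sF.tsum_le_tsum (fun n => ?_) (s1.mul_left _)
      rw [← Real.exp_add, Real.exp_le_exp]
      have := nmF_ge n.2
      rw [← hm] at this
      have h5 : 0 ≤ Real.pi * (t - 1) * (nm AF n.1 - m) :=
        mul_nonneg (mul_nonneg Real.pi_pos.le (by linarith)) (by linarith)
      nlinarith
    have e3 := h t ht
    rw [eA, eF] at e3
    linarith
  have h2 : ∀ t : ℝ, 1 < t → Real.exp (Real.pi * (m - ν) * t) ≤ Real.exp (Real.pi * m) * C := by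
    intro t ht
    have e1 := mul_le_mul_of_nonneg_left (h1 t ht) (Real.exp_pos (Real.pi * t * m)).le
    rw [← Real.exp_add, ← mul_assoc, ← Real.exp_add] at e1
    have e2 : Real.pi * t * m + -Real.pi * t * ν = Real.pi * (m - ν) * t := by ring
    have e3 : Real.pi * t * m + -Real.pi * (t - 1) * m = Real.pi * m := by ring
    rwa [e2, e3] at e1
  have hδ : 0 < Real.pi * (m - ν) := mul_pos Real.pi_pos (by linarith)
  obtain ⟨K, hK⟩ : ∃ K : ℝ, K = Real.exp (Real.pi * m) * C := ⟨_, rfl⟩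
  have hK0 : 0 ≤ K := by rw [hK]; positivity
  have h3 := h2 (1 + (K + 1) / (Real.pi * (m - ν))) (by
    have : 0 < (K + 1) / (Real.pi * (m - ν)) := by positivity
    linarith)
  rw [← hK] at h3
  have h4 : K + 1 ≤ Real.pi * (m - ν) * (1 + (K + 1) / (Real.pi * (m - ν))) := by
    have : Real.pi * (m - ν) * (1 + (K + 1) / (Real.pi * (m - ν))) =
        Real.pi * (m - ν) + (K + 1) := by
      field_simp
    rw [this]
    linarith
  have h5 := Real.add_one_le_exp (Real.pi * (m - ν) * (1 + (K + 1) / (Real.pi * (m - ν))))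
  linarith

/-- Gauss' theorem: the densest lattice is the face-centred cubic lattice -/
theorem gram_of_min {A : Matrix (Fin 3) (Fin 3) ℝ} (hA : |A.det| = 1)
    (h : ∀ z : Fin 3 → ℤ, z ≠ 0 → (2:ℝ) ^ ((1:ℝ)/3) ≤ nm A z) :
    ∃ U V : Matrix (Fin 3) (Fin 3) ℤ, IsUnit U.det ∧ IsUnit V.det ∧
      (A * rm U)ᵀ * (A * rm U) = (AF * rm V)ᵀ * (AF * rm V) := by
  obtain ⟨s1, d1, s2, d2, s3, d3, ⟨U, hU, e⟩, c1, c2, c3, c4, c5, c6, c7, c8⟩ :=
    exists_reduced A (g13_unit hA).ne_zero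
  have hp := g13_pos
  have h3 := g13_cube
  have hdt : dt (sd s1 d1 s2 d2 s3 d3) = 1 := by
    rw [← det_sq e, Matrix.det_mul, rm_det, mul_pow, ← sq_abs A.det, hA]
    rcases Int.isUnit_iff.1 hU with h | h <;> rw [h] <;> norm_num
  have hq : ∀ n : Fin 3 → ℤ, n ≠ 0 → (2:ℝ) ^ ((1:ℝ)/3) ≤ qf (sd s1 d1 s2 d2 s3 d3) (rv n) := by
    intro n hn
    rw [← nsq_eq e, nsq_mul_rm]
    refine h (U.mulVec n) fun h0 => hn ?_
    have h1 : U⁻¹.mulVec (U.mulVec n) = 0 := by rw [h0, Matrix.mulVec_zero]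
    rwa [Matrix.mulVec_mulVec, Matrix.nonsing_inv_mul _ hU, Matrix.one_mulVec] at h1
  have hE := gauss_eq c1 c2 c3 c4 c5 c6 c7 c8 _ hp (by rw [hdt, h3]; norm_num) hq
  refine ⟨U, g13_UF, hU, g13_UF_det, ?_⟩
  have e2 : AF * rm g13_UF = ((2:ℝ) ^ ((1:ℝ)/3))⁻¹ • (g13_MF * rm g13_UF) := by
    unfold AF
    rw [Matrix.smul_mul, g13_inv]
    rfl
  rw [e, hE, e2, Matrix.transpose_smul, Matrix.smul_mul, Matrix.mul_smul, g13_gramF, smul_smul,
    Pool.Agent.H999.Theta3.fin_Qm_smul]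
  congr 1
  generalize (2:ℝ) ^ ((1:ℝ)/3) = c at *
  field_simp
  linarith

end Pool.Agent.H999.Uni3
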